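import Pool.Agent.N408.IB.Stm

/-!
# The explicit cap bump
-/

open Real Set IB408

namespace N42.IB.ODD1

lemma b_pos : 0 < b := by norm_num [b]

lemma b_le : b ≤ 1 / 1000 := by norm_num [b]

lemma sin_al : sin al = b := by
  rw [al]
  exact sin_arcsin (by linarith [b_pos]) (by linarith [b_le])

lemma c_sq : c ^ 2 = 1 - b ^ 2 := by
  have h := sin_sq_add_cos_sq al
  rw [sin_al] at h
  rw [c]
  linarith

lemma al_nonneg : 0 ≤ al := arcsin_nonneg.2 b_pos.le

lemma al_le : al ≤ π / 2 := arcsin_le_pi_div_two b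

lemma c_nonneg : 0 ≤ c :=
  cos_nonneg_of_mem_Icc ⟨by linarith [al_nonneg, pi_pos], al_le⟩

lemma c_ge : 97 / 100 ≤ c := by
  by_contra h
  have h1 := c_sq
  have h2 := c_nonneg
  have h3 : b ^ 2 ≤ 1 / 1000 := by nlinarith [b_pos, b_le]
  nlinarith

lemma c_lt : c < 1 := by
  by_contra h
  have h1 := c_sq
  have h3 : 0 < b ^ 2 := pow_pos b_pos 2
  nlinarith

lemma fac : (1 - c) * (1 + c) = b ^ 2 := by
  have h1 := c_sq
  linarith [h1]

lemma c1 : b ^ 2 / 2 ≤ 1 - c := by
  have h1 := fac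
  nlinarith [c_lt]

lemma c2 : 1 - c ≤ (51 / 100) * b ^ 2 := by
  have h1 := fac
  nlinarith [c_lt, c_ge]

lemma al_le2 : al ≤ 2 * b := by
  have h1 := mul_le_sin al_nonneg al_le
  rw [sin_al, div_mul_eq_mul_div, div_le_iff₀ pi_pos] at h1
  nlinarith [pi_le_four, b_pos]

lemma b_le_al : b ≤ al := by
  have h1 := sin_le al_nonneg
  rwa [sin_al] at h1

lemma al_le3 : al ≤ (1001 / 1000) * b := by
  have h0 : 0 < al := b_pos.trans_le b_le_al
  have h1 := sin_gt_sub_cube h0
  rw [sin_al] at h1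
  have h2 : al ^ 2 ≤ 4 * b ^ 2 := by nlinarith [al_le2]
  have h3 : al ^ 3 / 6 ≤ al * b ^ 2 := by
    have h30 := mul_le_mul_of_nonneg_left h2 h0.le
    have h31 : 0 ≤ al * b ^ 2 := mul_nonneg h0.le (sq_nonneg b)
    have h32 : al ^ 3 = al * al ^ 2 := by ring
    rw [h32]
    linarith
  have h4 : b ^ 2 ≤ 1 / 1000000 := by
    have := b_le
    nlinarith [b_pos]
  by_contra h5
  rw [not_le] at h5
  nlinarith [b_pos]

/-- the positive part of `cos ψ - c` -/
noncomputable def G (ψ : ℝ) : ℝ := max (cos ψ - c) 0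

lemma oc_eq (ψ : ℝ) : oc ψ = G ψ ^ 2 / (100 * (1 - c)) := by
  have h : 1 - c ≠ 0 := by linarith [c_lt]
  rw [oc, G]
  field_simp

lemma G_nonneg (ψ : ℝ) : 0 ≤ G ψ := le_max_right _ _

lemma G_le (ψ : ℝ) : G ψ ≤ 1 - c := by
  rw [G]
  refine max_le ?_ (by linarith [c_lt])
  linarith [cos_le_one ψ]

lemma le_G (ψ : ℝ) : cos ψ - c ≤ G ψ := le_max_left _ _

lemma G_per (ψ : ℝ) (k : ℤ) : G (ψ - k * (2 * π)) = G ψ := by
  rw [G, G, cos_sub_int_mul_two_pi]

lemma sin_half {φ : ℝ} (h1 : |φ| ≤ al) : |sin φ| ≤ b := by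
  rw [abs_sin_eq_sin_abs_of_abs_le_pi (by linarith [al_le, pi_pos]), ← sin_al]
  exact sin_le_sin_of_le_of_le_pi_div_two (by linarith [abs_nonneg φ, pi_pos]) al_le h1

lemma cos_diff (x y : ℝ) : |cos x - cos y| ≤ |sin ((x + y) / 2)| * |x - y| := by
  rw [cos_sub_cos, abs_mul, abs_mul, abs_neg, abs_two]
  have h1 : |sin ((x - y) / 2)| ≤ |(x - y) / 2| := abs_sin_le_abs
  rw [abs_div, abs_two] at h1
  nlinarith [abs_nonneg (sin ((x + y) / 2))]

lemma cap_le {φ : ℝ} (h1 : |φ| ≤ al) : G φ ≤ b * (al - |φ|) := by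
  have h2 := cos_diff |φ| al
  have h3 : |sin ((|φ| + al) / 2)| ≤ b := by
    apply sin_half
    rw [abs_of_nonneg (by linarith [abs_nonneg φ, al_nonneg])]
    linarith
  have h4 : abs (|φ| - al) = al - |φ| := by
    rw [abs_of_nonpos (by linarith)]
    ring
  rw [h4, cos_abs] at h2
  rw [G]
  refine max_le ?_ (mul_nonneg b_pos.le (by linarith))
  have h5 : cos φ - c ≤ |cos φ - cos al| := le_abs_self _
  refine h5.trans (h2.trans ?_)
  exact mul_le_mul_of_nonneg_right h3 (by linarith)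

lemma red {x : ℝ} (hx : c < cos x) : ∃ k : ℤ, |x - k * (2 * π)| ≤ al := by
  refine ⟨round (x / (2 * π)), ?_⟩
  set k : ℤ := round (x / (2 * π)) with hk
  have h1 := abs_sub_round (x / (2 * π))
  rw [← hk] at h1
  have h2 : x - k * (2 * π) = (x / (2 * π) - k) * (2 * π) := by
    field_simp
  have h3 : |x - k * (2 * π)| ≤ π := by
    rw [h2, abs_mul, abs_of_pos two_pi_pos]
    nlinarith [pi_pos]
  by_contra h4
  rw [not_le] at h4
  have h5 : cos |x - k * (2 * π)| < cos al :=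
    cos_lt_cos_of_nonneg_of_le_pi al_nonneg h3 h4
  rw [cos_abs, cos_sub_int_mul_two_pi] at h5
  rw [c] at hx
  linarith

/-- inside the cap -/
lemma mid {m : ℝ} (hm : |m| ≤ al) : |sin m| * (2 * (cos m - c)) ≤ b * (1 - c) := by
  set s := |sin m| with hs
  have h1 : 0 ≤ s := abs_nonneg _
  have h2 : s ≤ b := sin_half hm
  have h3 : s ^ 2 + cos m ^ 2 = 1 := by
    rw [hs, sq_abs]
    exact sin_sq_add_cos_sq m
  have h4 : c ≤ cos m := by
    rw [c, ← cos_abs m]
    exact cos_le_cos_of_nonneg_of_le_pi (abs_nonneg _) (by linarith [al_le, pi_pos]) hm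
  have h5 : (cos m - c) * (cos m + c) = b ^ 2 - s ^ 2 := by
    have := c_sq
    nlinarith
  have h6 : (cos m - c) * (2 * (97 / 100)) ≤ b ^ 2 - s ^ 2 := by
    rw [← h5]
    exact mul_le_mul_of_nonneg_left (by linarith [c_ge]) (by linarith)
  have h7 : 0 ≤ s ^ 3 - s * b ^ 2 + (2 / 5) * b ^ 3 := by
    have h8 : 0 ≤ (s - 58 / 100 * b) ^ 2 * (s + 116 / 100 * b) :=
      mul_nonneg (sq_nonneg _) (by linarith [b_pos])
    have h9 : 0 ≤ s * b ^ 2 := by positivity
    have h10 : 0 ≤ b ^ 3 := pow_nonneg b_pos.le 3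
    nlinarith
  have h8 : s * (2 * (cos m - c)) ≤ s * ((100 / 97) * (b ^ 2 - s ^ 2)) :=
    mul_le_mul_of_nonneg_left (by linarith) h1
  have h9 : b * (b ^ 2 / 2) ≤ b * (1 - c) := mul_le_mul_of_nonneg_left c1 b_pos.le
  have h10 : 0 ≤ b ^ 3 := pow_nonneg b_pos.le 3
  nlinarith

/-- `G` and its square are Lipschitz. -/
lemma lip (x y : ℝ) : G x - G y ≤ b * |x - y| ∧ G x ^ 2 - G y ^ 2 ≤ b * (1 - c) * |x - y| := by
  have hb := b_pos
  have hc := c_lt
  by_cases hx : c < cos x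
  swap
  · have h1 : G x = 0 := by
      rw [G]
      exact max_eq_right (by linarith)
    have h2 := G_nonneg y
    rw [h1]
    constructor
    · have : 0 ≤ b * |x - y| := by positivity
      linarith
    · have : 0 ≤ b * (1 - c) * |x - y| :=
        mul_nonneg (mul_nonneg hb.le (by linarith)) (abs_nonneg _)
      nlinarith
  obtain ⟨k, hk⟩ := red hx
  rw [← G_per x k, ← G_per y k, show x - y = (x - k * (2 * π)) - (y - k * (2 * π)) by ring]
  set x' := x - k * (2 * π)
  set y' := y - k * (2 * π)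
  by_cases hy : |y'| ≤ al
  · have h1 := cos_diff x' y'
    have h2 : |(x' + y') / 2| ≤ al := by
      rw [abs_div, abs_two]
      have := abs_add_le x' y'
      linarith
    have hin : ∀ z : ℝ, |z| ≤ al → G z = cos z - c := by
      intro z hz
      rw [G]
      refine max_eq_left ?_
      have h4 : c ≤ cos z := by
        rw [c, ← cos_abs z]
        exact cos_le_cos_of_nonneg_of_le_pi (abs_nonneg _) (by linarith [al_le, pi_pos]) hz
      linarith
    have hGx := hin x' hk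
    have hGy := hin y' hy
    have h5 : G x' - G y' ≤ |cos x' - cos y'| := by
      rw [hGx, hGy]
      have := le_abs_self (cos x' - cos y')
      linarith
    refine ⟨h5.trans (h1.trans (mul_le_mul_of_nonneg_right (sin_half h2) (abs_nonneg _))), ?_⟩
    have h6 : G x' + G y' ≤ 2 * (cos ((x' + y') / 2) - c) := by
      rw [hGx, hGy]
      have h7 := cos_add_cos x' y'
      have h8 : 0 ≤ cos ((x' + y') / 2) :=
        cos_nonneg_of_mem_Icc ⟨by linarith [(abs_le.1 h2).1, al_le],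
          by linarith [(abs_le.1 h2).2, al_le]⟩
      have h9 := cos_le_one ((x' - y') / 2)
      nlinarith
    have h10 := mid h2
    calc G x' ^ 2 - G y' ^ 2 = (G x' - G y') * (G x' + G y') := by ring
      _ ≤ (|sin ((x' + y') / 2)| * |x' - y'|) * (G x' + G y') :=
          mul_le_mul_of_nonneg_right (h5.trans h1) (add_nonneg (G_nonneg _) (G_nonneg _))
      _ ≤ (|sin ((x' + y') / 2)| * |x' - y'|) * (2 * (cos ((x' + y') / 2) - c)) :=
          mul_le_mul_of_nonneg_left h6 (by positivity)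
      _ = (|sin ((x' + y') / 2)| * (2 * (cos ((x' + y') / 2) - c))) * |x' - y'| := by ring
      _ ≤ b * (1 - c) * |x' - y'| := mul_le_mul_of_nonneg_right h10 (abs_nonneg _)
  · rw [not_le] at hy
    have h1 : al - |x'| ≤ |x' - y'| := by
      have h2 := abs_sub_abs_le_abs_sub y' x'
      rw [abs_sub_comm y' x'] at h2
      linarith
    have h2 := cap_le hk
    have h3 : b * (al - |x'|) ≤ b * |x' - y'| := mul_le_mul_of_nonneg_left h1 hb.le
    have h4 := G_nonneg y'
    refine ⟨by linarith, ?_⟩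
    have h5 : G x' * G x' ≤ (1 - c) * (b * |x' - y'|) :=
      mul_le_mul (G_le x') (h2.trans h3) (G_nonneg _) (by linarith)
    nlinarith

lemma lipG (x y : ℝ) : |G x - G y| ≤ b * |x - y| := by
  rw [abs_le]
  have h1 := (lip x y).1
  have h2 := (lip y x).1
  rw [abs_sub_comm] at h2
  constructor <;> linarith

/-- the second difference -/
lemma sec (x δ : ℝ) : |G (x + δ) ^ 2 + G (x - δ) ^ 2 - 2 * G x ^ 2| ≤ 7 * (1 - c) * δ ^ 2 := by
  have hb := b_pos
  have hc1 := c1
  have hδ : 0 ≤ δ ^ 2 := sq_nonneg δ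
  have key : (7 / 2) * b ^ 2 * δ ^ 2 ≤ 7 * (1 - c) * δ ^ 2 := by
    have := mul_le_mul_of_nonneg_right hc1 hδ
    nlinarith
  refine le_trans ?_ key
  have h1 := lipG (x + δ) x
  have h2 := lipG (x - δ) x
  rw [show x + δ - x = δ by ring] at h1
  rw [show x - δ - x = -δ by ring, abs_neg] at h2
  have hp := G_nonneg (x + δ)
  have hm := G_nonneg (x - δ)
  have h0 := G_nonneg x
  have hp' := le_G (x + δ)
  have hm' := le_G (x - δ)
  have hbd : 0 ≤ b * |δ| := by positivity
  have e1 : (G (x + δ) - G x) ^ 2 ≤ b ^ 2 * δ ^ 2 := by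
    rw [← sq_abs (G (x + δ) - G x), ← sq_abs δ, ← mul_pow]
    exact pow_le_pow_left₀ (abs_nonneg _) h1 2
  have e2 : (G (x - δ) - G x) ^ 2 ≤ b ^ 2 * δ ^ 2 := by
    rw [← sq_abs (G (x - δ) - G x), ← sq_abs δ, ← mul_pow]
    exact pow_le_pow_left₀ (abs_nonneg _) h2 2
  have hbd2 : (b * |δ|) ^ 2 = b ^ 2 * δ ^ 2 := by rw [mul_pow, sq_abs]
  have heq : G (x + δ) ^ 2 + G (x - δ) ^ 2 - 2 * G x ^ 2 =
      (G (x + δ) - G x) ^ 2 + (G (x - δ) - G x) ^ 2 +
        2 * G x * (G (x + δ) + G (x - δ) - 2 * G x) := by ring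
  rw [heq]
  by_cases hx : c < cos x
  · have hG : G x = cos x - c := by
      rw [G]
      exact max_eq_left (by linarith)
    have hcos : cos (x + δ) + cos (x - δ) - 2 * cos x = 2 * cos x * (cos δ - 1) := by
      rw [cos_add, cos_sub]
      ring
    have hcd := one_sub_sq_div_two_le_cos (x := δ)
    have hc0 := c_nonneg
    have hc1' := cos_le_one x
    have hcd1 := cos_le_one δ
    have l1 : -δ ^ 2 ≤ cos (x + δ) + cos (x - δ) - 2 * cos x := by
      rw [hcos]
      nlinarith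
    have l2 : -δ ^ 2 ≤ G (x + δ) + G (x - δ) - 2 * G x := by
      rw [hG]
      linarith
    have l3 : -((51 / 50) * b ^ 2 * δ ^ 2) ≤ 2 * G x * (G (x + δ) + G (x - δ) - 2 * G x) := by
      have l4 : G x ≤ (51 / 100) * b ^ 2 := (G_le x).trans c2
      have l5 : 2 * G x * (-δ ^ 2) ≤ 2 * G x * (G (x + δ) + G (x - δ) - 2 * G x) :=
        mul_le_mul_of_nonneg_left l2 (by linarith)
      have l6 : G x * δ ^ 2 ≤ (51 / 100) * b ^ 2 * δ ^ 2 := mul_le_mul_of_nonneg_right l4 hδ
      linarith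
    have u1 : 2 * G x * (G (x + δ) + G (x - δ) - 2 * G x) ≤ b ^ 2 * δ ^ 2 := by
      have hnn : 0 ≤ b ^ 2 * δ ^ 2 := by positivity
      by_cases hp0 : 0 ≤ cos (x + δ) - c
      · by_cases hm0 : 0 ≤ cos (x - δ) - c
        · have g1 : G (x + δ) = cos (x + δ) - c := max_eq_left hp0
          have g2 : G (x - δ) = cos (x - δ) - c := max_eq_left hm0
          have g3 : G (x + δ) + G (x - δ) - 2 * G x ≤ 0 := by
            rw [g1, g2, hG]
            have : 2 * cos x * (cos δ - 1) ≤ 0 :=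
              mul_nonpos_of_nonneg_of_nonpos (by linarith) (by linarith)
            linarith
          have g4 : 2 * G x * (G (x + δ) + G (x - δ) - 2 * G x) ≤ 0 :=
            mul_nonpos_of_nonneg_of_nonpos (by linarith) g3
          linarith
        · have g2 : G (x - δ) = 0 := max_eq_right (by linarith)
          rw [g2, zero_sub, abs_neg, abs_of_nonneg h0] at h2
          have g3 := (abs_le.1 h1).2
          rw [g2]
          nlinarith [sq_nonneg (b * |δ| - G x)]
      · have g1 : G (x + δ) = 0 := max_eq_right (by linarith)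
        rw [g1, zero_sub, abs_neg, abs_of_nonneg h0] at h1
        have g3 := (abs_le.1 h2).2
        rw [g1]
        nlinarith [sq_nonneg (b * |δ| - G x)]
    have n1 := sq_nonneg (G (x + δ) - G x)
    have n2 := sq_nonneg (G (x - δ) - G x)
    rw [abs_le]
    have hnn : 0 ≤ b ^ 2 * δ ^ 2 := by positivity
    constructor <;> linarith
  · have hG : G x = 0 := by
      rw [G]
      exact max_eq_right (by linarith)
    rw [hG] at e1 e2 ⊢
    have n1 := sq_nonneg (G (x + δ) - 0)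
    have n2 := sq_nonneg (G (x - δ) - 0)
    have hnn : 0 ≤ b ^ 2 * δ ^ 2 := by positivity
    rw [abs_le]
    constructor <;> nlinarith

/-- **The explicit cap bump.** -/
theorem t : IB408.S_ODD1 := by
  have hc : 0 < 1 - c := by linarith [c_lt]
  have h100 : 0 < 100 * (1 - c) := by linarith
  refine ⟨⟨b_le_al, al_le3, sin_al, rfl, by linarith [c_ge], c_lt, c1, c2⟩, ?_, ?_, ?_, ?_, ?_,
    ?_, ?_, ?_⟩
  · unfold oc
    fun_prop
  · intro ψ
    rw [oc, oc, cos_neg]
  · intro ψ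
    rw [oc_eq]
    positivity
  · intro ψ
    rw [oc_eq, div_le_iff₀ h100]
    have h1 : G ψ ^ 2 ≤ (1 - c) ^ 2 := pow_le_pow_left₀ (G_nonneg _) (G_le _) 2
    have h2 := mul_le_mul_of_nonneg_left c2 hc.le
    nlinarith
  · intro ψ h
    have h1 : G ψ = 0 := max_eq_right (by linarith)
    rw [oc_eq, h1]
    simp
  · intro x y
    rw [oc_eq, oc_eq, ← sub_div, abs_div, abs_of_pos h100, div_le_iff₀ h100]
    have h1 : |G x ^ 2 - G y ^ 2| ≤ b * (1 - c) * |x - y| := by
      rw [abs_le]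
      have h1 := (lip x y).2
      have h2 := (lip y x).2
      rw [abs_sub_comm] at h2
      constructor <;> linarith
    refine h1.trans (le_of_eq ?_)
    ring
  · intro x δ
    have h1 : oc (x + δ) + oc (x - δ) - 2 * oc x =
        (G (x + δ) ^ 2 + G (x - δ) ^ 2 - 2 * G x ^ 2) / (100 * (1 - c)) := by
      rw [oc_eq, oc_eq, oc_eq]
      ring
    rw [h1, abs_div, abs_of_pos h100, div_le_iff₀ h100]
    refine (sec x δ).trans (le_of_eq ?_)
    ring
  · intro ψ hψ
    rw [oc_eq, div_le_iff₀ h100]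
    have h1 : G ψ ^ 2 ≤ (b * (al - |ψ|)) ^ 2 := pow_le_pow_left₀ (G_nonneg _) (cap_le hψ) 2
    rw [mul_pow] at h1
    have h2 := mul_le_mul_of_nonneg_right c1 (sq_nonneg (al - |ψ|))
    have h3 : 0 ≤ b ^ 2 * (al - |ψ|) ^ 2 := by positivity
    nlinarith

end N42.IB.ODD1
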